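import Pool.Agent.H161.ToricMain

namespace Pool.Agent.Results.MP_141d57_co.GammaCone
open Polynomial Finset

/-- The toric `g`-contribution polynomial `g_{n,j}`. -/
noncomputable def g (n j : ℕ) : ℝ[X] :=
  ∑ k ∈ range (min (n / 2) (n - j) + 1),
    C ((catalan (n - k - j) : ℝ) * ((n - k).choose k : ℝ)) * (X - 1) ^ k

/-- A real polynomial is real-rooted if it is nonzero and all its complex roots are real. -/
def RealRooted (p : ℝ[X]) : Prop := p ≠ 0 ∧ ∀ z : ℂ, aeval z p = 0 → z.im = 0

/-- `γ` is the `γ`-vector of the polynomial `h` of degree (at most) `n`: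
`h = ∑_{j ≤ n/2} γ_j X^j (1+X)^{n-2j}`. -/
def IsGamma (n : ℕ) (h : ℝ[X]) (γ : ℕ → ℝ) : Prop :=
  h = ∑ j ∈ range (n / 2 + 1), C (γ j) * (X ^ j * (1 + X) ^ (n - 2 * j))

/-- `B` is a connected building set on `{0, …, n}`: a family of nonempty subsets that contains the
singletons and the whole set, and the union of any two of its members with a common element. -/
structure IsBuilding (n : ℕ) (B : Finset (Finset (Fin (n + 1)))) : Prop where
  nonempty : ∀ I ∈ B, I.Nonempty
  single : ∀ i, {i} ∈ B
  union : ∀ I ∈ B, ∀ J ∈ B, (I ∩ J).Nonempty → I ∪ J ∈ B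
  conn : Finset.univ ∈ B

/-- `B` is chordal: every tail of a member is a member. -/
def IsChordal (n : ℕ) (B : Finset (Finset (Fin (n + 1)))) : Prop :=
  ∀ I ∈ B, ∀ s ∈ I, I.filter (fun i => s ≤ i) ∈ B

/-- `w` is a `B`-permutation (Postnikov, Reiner, Williams): for every `i` the element `w i` and the
largest element of `S = {w 0, …, w i}` lie in one member of `B` that is contained in `S`. -/
def IsBPerm (n : ℕ) (B : Finset (Finset (Fin (n + 1)))) (w : Equiv.Perm (Fin (n + 1))) : Prop :=
  ∀ i : Fin (n + 1), ∃ I ∈ B, (∀ x ∈ I, w.symm x ≤ i) ∧ w i ∈ I ∧ ∃ m ∈ I, ∀ j ≤ i, w j ≤ m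

/-- `i` is a descent of `w`. -/
def IsDes (n : ℕ) (w : Equiv.Perm (Fin (n + 1))) (i : Fin n) : Prop := w i.succ < w i.castSucc

open Classical in
/-- The number of `B`-permutations with `j` descents, no double descent and no final descent. By the
theorem of Postnikov, Reiner and Williams this is the entry `γ_j` of the `γ`-vector of the nestohedron
of the chordal building set `B`. -/
noncomputable def prw (n : ℕ) (B : Finset (Finset (Fin (n + 1)))) (j : ℕ) : ℕ :=
  (univ.filter fun w : Equiv.Perm (Fin (n + 1)) => IsBPerm n B w ∧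
    (∀ i k : Fin n, (k : ℕ) = i + 1 → IsDes n w i → ¬ IsDes n w k) ∧
    (∀ i : Fin n, (i : ℕ) + 1 = n → ¬ IsDes n w i) ∧
    (univ.filter fun i => IsDes n w i).card = j).card

lemma prw_zero_pos (n : ℕ) (B : Finset (Finset (Fin (n + 1)))) (hB : IsBuilding n B) :
    0 < prw n B 0 := by
  classical
  unfold prw
  rw [Finset.card_pos]
  have hd : ∀ i : Fin n, ¬ IsDes n (1 : Equiv.Perm (Fin (n + 1))) i := by
    intro i h
    unfold IsDes at h
    rw [Equiv.Perm.one_apply, Equiv.Perm.one_apply, Fin.lt_def, Fin.val_succ, Fin.val_castSucc] at h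
    omega
  refine ⟨1, Finset.mem_filter.2 ⟨Finset.mem_univ _, ?_, fun i k _ h => absurd h (hd i),
    fun i _ => hd i, ?_⟩⟩
  · intro i
    refine ⟨{i}, hB.single i, ?_, ?_, i, Finset.mem_singleton_self i, ?_⟩
    · intro x hx
      rw [Finset.mem_singleton] at hx
      subst hx
      exact le_rfl
    · exact Finset.mem_singleton_self i
    · intro j hj
      exact hj
  · rw [Finset.card_eq_zero, Finset.filter_eq_empty_iff]
    intro i _
    exact hd i

/-- The toric `g`-polynomial of an `n`-dimensional simple polytope with `γ`-vector `γ`. -/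
noncomputable def toricG (n : ℕ) (γ : ℕ → ℝ) : ℝ[X] :=
  ∑ j ∈ range (n / 2 + 1), C (γ j) * g n j

lemma g_comp (n j : ℕ) (hj : j ≤ n / 2) :
    g n j = (Pool.Agent.H161.pol (n / 2) (Pool.Agent.H161.gc n j)).comp (X - 1) := by
  rw [g, show min (n / 2) (n - j) = n / 2 by omega, Pool.Agent.H161.pol]
  simp [Polynomial.sum_comp, Pool.Agent.H161.gc]

lemma toricG_comp (n : ℕ) (γ : ℕ → ℝ) : toricG n γ =
    (∑ j ∈ range (n / 2 + 1), C (γ j) *
      Pool.Agent.H161.pol (n / 2) (Pool.Agent.H161.gc n j)).comp (X - 1) := by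
  rw [toricG, Polynomial.sum_comp]
  apply Finset.sum_congr rfl; intro j hj
  rw [g_comp n j (Nat.lt_succ_iff.1 (mem_range.1 hj))]
  simp

lemma main (n : ℕ) (γ : ℕ → ℝ) (h0 : ∀ j ≤ n / 2, 0 ≤ γ j) (h1 : ∃ j ≤ n / 2, γ j ≠ 0) :
    RealRooted (toricG n γ) := by
  rcases Nat.lt_or_ge n 2 with hn | hn
  · have e : toricG n γ = C (γ 0) := by
      have : catalan n = 1 := by interval_cases n <;> simp
      rw [toricG, show n / 2 = 0 by omega]
      simp [g, show n / 2 = 0 by omega, this]
    have h2 : γ 0 ≠ 0 := by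
      obtain ⟨j, hj, hj'⟩ := h1
      rwa [show j = 0 by omega] at hj'
    rw [e]
    refine ⟨by simpa using h2, ?_⟩
    intro z hz
    rw [aeval_C] at hz
    exact absurd (by simpa using hz) h2
  · have key := Pool.Agent.H161.comb_ne n hn γ h0 h1
    have ev : ∀ z : ℂ, aeval z (toricG n γ) = aeval (z - 1) (∑ j ∈ range (n / 2 + 1), C (γ j) *
        Pool.Agent.H161.pol (n / 2) (Pool.Agent.H161.gc n j)) := by
      intro z
      rw [toricG_comp, aeval_comp]; simp
    constructor
    · intro h
      have := key Complex.I (by simp)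
      apply this
      have e := ev (Complex.I + 1)
      rw [h] at e
      simpa using e.symm
    · intro z hz
      by_contra hc
      rw [ev] at hz
      exact key (z - 1) (by simpa using hc) hz

/-- the terms of the `γ`-expansion -/
lemma coeff_term (n j i : ℕ) (c : ℝ) :
    (C c * (X ^ j * (1 + X) ^ (n - 2 * j)) : ℝ[X]).coeff i =
      if j ≤ i then c * ((n - 2 * j).choose (i - j) : ℝ) else 0 := by
  rw [coeff_C_mul, coeff_X_pow_mul']
  split_ifs with h
  · rw [coeff_one_add_X_pow]
  · simp

/-- uniqueness of the `γ`-vector -/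
lemma gamma_unique (n : ℕ) (h : ℝ[X]) (γ γ' : ℕ → ℝ) (h1 : IsGamma n h γ) (h2 : IsGamma n h γ') :
    ∀ j ≤ n / 2, γ j = γ' j := by
  intro j
  induction j using Nat.strong_induction_on with
  | _ j ih =>
    intro hj
    have e := congrArg (fun p => coeff p j) (h1.symm.trans h2)
    simp only [finsetSum_coeff, coeff_term] at e
    have s : ∀ δ : ℕ → ℝ, ∑ i ∈ range (n / 2 + 1),
        (if i ≤ j then δ i * ((n - 2 * i).choose (j - i) : ℝ) else 0) =
        (∑ i ∈ range j, δ i * ((n - 2 * i).choose (j - i) : ℝ)) + δ j := by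
      intro δ
      have hsub : range (j + 1) ⊆ range (n / 2 + 1) := by
        intro i hi; rw [mem_range] at hi ⊢; omega
      rw [← Finset.sum_subset hsub (fun i _ hi => by
        rw [if_neg]; rw [mem_range] at hi; omega)]
      rw [sum_range_succ, if_pos le_rfl, Nat.sub_self, Nat.choose_zero_right, Nat.cast_one, mul_one]
      congr 1
      apply Finset.sum_congr rfl; intro i hi
      rw [if_pos (mem_range.1 hi).le]
    rw [s, s] at e
    have e2 : ∑ i ∈ range j, γ i * ((n - 2 * i).choose (j - i) : ℝ) =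
        ∑ i ∈ range j, γ' i * ((n - 2 * i).choose (j - i) : ℝ) := by
      apply Finset.sum_congr rfl; intro i hi
      have := mem_range.1 hi
      rw [ih i this (by omega)]
    linarith

/-- the `γ`-vector of the cyclohedron -/
noncomputable def cyc (n j : ℕ) : ℝ := (n.choose (2 * j) : ℝ) * ((2 * j).choose j : ℝ)

lemma cyc_term (n j i : ℕ) (hj : 2 * j ≤ n) (hi : i ≤ n) (hji : j ≤ i) :
    (n.choose (2 * j) * (2 * j).choose j) * (n - 2 * j).choose (i - j) =
      n.choose i * (i.choose (i - j) * (n - i).choose j) := by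
  rcases Nat.lt_or_ge (n - i) j with h | h
  · rw [Nat.choose_eq_zero_of_lt h, Nat.choose_eq_zero_of_lt (by omega : n - 2 * j < i - j)]; simp
  · have e : ((n.choose (2 * j) * (2 * j).choose j * (n - 2 * j).choose (i - j) : ℕ) : ℚ) =
        (n.choose i * (i.choose (i - j) * (n - i).choose j) : ℕ) := by
      push_cast
      rw [Nat.cast_choose ℚ hj, Nat.cast_choose ℚ (by omega : j ≤ 2 * j),
        Nat.cast_choose ℚ (by omega : i - j ≤ n - 2 * j), Nat.cast_choose ℚ hi,
        Nat.cast_choose ℚ (by omega : i - j ≤ i), Nat.cast_choose ℚ h,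
        show 2 * j - j = j by omega, show n - 2 * j - (i - j) = n - i - j by omega,
        show i - (i - j) = j by omega]
      have f : ∀ m : ℕ, (m.factorial : ℚ) ≠ 0 := fun m => Nat.cast_ne_zero.2 m.factorial_ne_zero
      have f1 := f (2 * j)
      have f2 := f j
      have f3 := f (n - 2 * j)
      have f4 := f (i - j)
      have f5 := f (n - i - j)
      have f6 := f i
      have f7 := f (n - i)
      field_simp
    exact_mod_cast e

lemma cyc_isGamma (n : ℕ) :
    IsGamma n (∑ i ∈ range (n + 1), C ((n.choose i : ℝ) ^ 2) * X ^ i) (cyc n) := by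
  unfold IsGamma
  ext i
  simp only [finsetSum_coeff, coeff_term, coeff_C_mul_X_pow]
  have lhs : ∑ b ∈ range (n + 1), (if i = b then ((n.choose b : ℝ) ^ 2) else 0) =
      (n.choose i : ℝ) ^ 2 := by
    rw [Finset.sum_ite_eq]
    split_ifs with h
    · rfl
    · rw [mem_range, not_lt] at h
      rw [Nat.choose_eq_zero_of_lt (by omega)]; simp
  rw [lhs]
  rcases Nat.lt_or_ge n i with hni | hi
  · rw [Nat.choose_eq_zero_of_lt hni]
    symm
    rw [Nat.cast_zero, zero_pow (by norm_num)]
    apply Finset.sum_eq_zero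
    intro j hj
    have := mem_range.1 hj
    split_ifs with h
    · rw [Nat.choose_eq_zero_of_lt (by omega : n - 2 * j < i - j)]; simp
    · rfl
  · have e1 : (∑ j ∈ range (n / 2 + 1),
        if j ≤ i then cyc n j * ((n - 2 * j).choose (i - j) : ℝ) else 0) =
        ∑ j ∈ range (n / 2 + 1), (if j ≤ i then
          (n.choose i : ℝ) * ((i.choose (i - j) : ℝ) * ((n - i).choose j : ℝ)) else 0) := by
      apply Finset.sum_congr rfl; intro j hj
      have := mem_range.1 hj
      split_ifs with h
      · rw [cyc]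
        exact_mod_cast cyc_term n j i (by omega) hi h
      · rfl
    have e2 : (∑ j ∈ range (n / 2 + 1), (if j ≤ i then
          (n.choose i : ℝ) * ((i.choose (i - j) : ℝ) * ((n - i).choose j : ℝ)) else 0)) =
        ∑ j ∈ range (i + 1),
          (n.choose i : ℝ) * ((i.choose (i - j) : ℝ) * ((n - i).choose j : ℝ)) := by
      have z1 : ∑ j ∈ range (n + 1), (if j ≤ i then
          (n.choose i : ℝ) * ((i.choose (i - j) : ℝ) * ((n - i).choose j : ℝ)) else 0) =
          (∑ j ∈ range (n / 2 + 1), (if j ≤ i then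
          (n.choose i : ℝ) * ((i.choose (i - j) : ℝ) * ((n - i).choose j : ℝ)) else 0)) := by
        symm
        apply Finset.sum_subset
        · intro j hj; rw [mem_range] at hj ⊢; omega
        · intro j _ hj
          rw [mem_range, not_lt] at hj
          split_ifs with h
          · rw [Nat.choose_eq_zero_of_lt (by omega : n - i < j)]; simp
          · rfl
      rw [← z1]
      have z2 : ∑ j ∈ range (i + 1), (if j ≤ i then
          (n.choose i : ℝ) * ((i.choose (i - j) : ℝ) * ((n - i).choose j : ℝ)) else 0) =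
          ∑ j ∈ range (n + 1), (if j ≤ i then
          (n.choose i : ℝ) * ((i.choose (i - j) : ℝ) * ((n - i).choose j : ℝ)) else 0) := by
        apply Finset.sum_subset
        · intro j hj; rw [mem_range] at hj ⊢; omega
        · intro j _ hj
          rw [mem_range, not_lt] at hj
          rw [if_neg (by omega)]
      rw [← z2]
      apply Finset.sum_congr rfl; intro j hj
      rw [if_pos (Nat.lt_succ_iff.1 (mem_range.1 hj))]
    rw [e1, e2, ← Finset.mul_sum]
    have v := Nat.add_choose_eq i (n - i) i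
    rw [show i + (n - i) = n by omega, ← Finset.Nat.sum_antidiagonal_swap,
      Finset.Nat.sum_antidiagonal_eq_sum_range_succ_mk] at v
    have v' : (n.choose i : ℝ) = ∑ j ∈ range (i + 1),
        ((i.choose (i - j) : ℝ) * ((n - i).choose j : ℝ)) := by
      rw [v]; push_cast; rfl
    rw [← v', sq]

/-- Every nonnegative combination of the `g_{n,j}`, `j ≤ n/2`, that is not identically zero is
real-rooted. In particular, the toric `g`-polynomial `∑ γ_j g_{n,j}` of every chordal nestohedron (with
the numbers `γ_j` of Postnikov, Reiner and Williams) is real-rooted, and so is the one attached to the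
`h`-polynomial `∑ binom(n,i)² x^i` of the `n`-dimensional cyclohedron. -/
theorem result :
    (∀ n : ℕ, 1 ≤ n → ∀ γ : ℕ → ℝ, (∀ j ≤ n / 2, 0 ≤ γ j) → (∃ j ≤ n / 2, γ j ≠ 0) →
      RealRooted (∑ j ∈ range (n / 2 + 1), C (γ j) * g n j)) ∧
    (∀ n : ℕ, 1 ≤ n → ∀ B : Finset (Finset (Fin (n + 1))), IsBuilding n B → IsChordal n B →
      RealRooted (∑ j ∈ range (n / 2 + 1), C (prw n B j : ℝ) * g n j)) ∧
    (∀ n : ℕ, 1 ≤ n → ∃ γ : ℕ → ℝ, (∀ j ≤ n / 2, 0 < γ j) ∧
      IsGamma n (∑ i ∈ range (n + 1), C ((n.choose i : ℝ) ^ 2) * X ^ i) γ) ∧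
    (∀ n : ℕ, 1 ≤ n → ∀ γ : ℕ → ℝ,
      IsGamma n (∑ i ∈ range (n + 1), C ((n.choose i : ℝ) ^ 2) * X ^ i) γ →
      RealRooted (∑ j ∈ range (n / 2 + 1), C (γ j) * g n j)) := by
  have cp : ∀ n j : ℕ, j ≤ n / 2 → 0 < cyc n j := by
    intro n j hj
    have h1 : 0 < n.choose (2 * j) := Nat.choose_pos (by omega)
    have h2 : 0 < (2 * j).choose j := Nat.choose_pos (by omega)
    unfold cyc
    exact_mod_cast Nat.mul_pos h1 h2
  refine ⟨fun n _ γ h0 h1 => main n γ h0 h1, fun n _ B hB _ => ?_, fun n _ => ⟨cyc n, fun j hj => cp n j hj,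
    cyc_isGamma n⟩, fun n _ γ hγ => ?_⟩
  · have h := main n (fun j => (prw n B j : ℝ)) (fun j _ => Nat.cast_nonneg _)
      ⟨0, Nat.zero_le _, Nat.cast_ne_zero.2 (prw_zero_pos n B hB).ne'⟩
    exact h
  · have u := gamma_unique n _ γ (cyc n) hγ (cyc_isGamma n)
    apply main n γ
    · intro j hj; rw [u j hj]; exact (cp n j hj).le
    · exact ⟨0, Nat.zero_le _, by rw [u 0 (Nat.zero_le _)]; exact (cp n 0 (Nat.zero_le _)).ne'⟩

end Pool.Agent.Results.MP_141d57_co.GammaCone
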